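import Pool.Agent.Y303.EJ.Stm

/-!
Project EJ (helper303), job EJ-ROT: the rotation during a stage.
-/

open Set Filter Topology MeasureTheory Metric

set_option autoImplicit false

namespace Pool.Agent.Y21.EJ

open Pool.Agent.Y5 (Pr Pr_cont Pr_deriv Pr_mono mono_of)
open Pool.Agent.Y6.N (src ph)
open Pool.Agent.Y303.EJ

/-- comparison of increments -/
lemma incr_abs {f g g' : ℝ → ℝ} {a b : ℝ} (hab : a ≤ b) (hf : ContinuousOn f (Icc a b))
    (hg : ContinuousOn g (Icc a b)) (hdg : ∀ t ∈ Ioo a b, HasDerivAt g (g' t) t)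
    (hdf : ∀ t ∈ Ioo a b, ∃ v, HasDerivAt f v t ∧ |v| ≤ g' t) : |f b - f a| ≤ g b - g a := by
  have h1 : ∀ t ∈ Ioo a b, HasDerivAt f (deriv f t) t ∧ |deriv f t| ≤ g' t := by
    intro t ht
    obtain ⟨v, hv, hb⟩ := hdf t ht
    rw [hv.deriv]
    exact ⟨hv, hb⟩
  have h2 := mono_of (f := fun t => g t - f t) (f' := fun t => g' t - deriv f t) hab
    (hg.sub hf) (fun t ht => (hdg t ht).sub (h1 t ht).1)
    (fun t ht => by linarith [(abs_le.1 (h1 t ht).2).2])
  have h3 := mono_of (f := fun t => g t + f t) (f' := fun t => g' t + deriv f t) hab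
    (hg.add hf) (fun t ht => (hdg t ht).add (h1 t ht).1)
    (fun t ht => by linarith [(abs_le.1 (h1 t ht).2).1])
  rw [abs_le]
  constructor <;> linarith

lemma exp_neg_le {y : ℝ} (hy : 0 < y) : Real.exp (-y) ≤ 1 / y := by
  rw [Real.exp_neg, ← one_div]
  exact one_div_le_one_div_of_le hy (by linarith [Real.add_one_le_exp y])

section ch

variable {η : ℝ} {lm L C ℓ : ℕ → ℝ} {B : ℕ → ℕ → ℝ} {T : ℝ} {x R V : ℕ → ℝ → ℝ}

lemma Lp (h : Num η lm L C ℓ) (n : ℕ) : 0 < L n := lt_of_lt_of_le one_pos (h.L1 n)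

lemma lmp (h : Num η lm L C ℓ) (n : ℕ) : 0 < lm n := lt_of_lt_of_le (by norm_num) (h.lm1 n)

lemma Rle (h : Ch η lm L C ℓ B T x R V) (n : ℕ) {t : ℝ} (ht : t ∈ Ico 0 T) :
    R (n + 1) t ≤ R n t := by
  have h1 := h.Rsq n t ht
  exact (sq_le_sq₀ (h.R0 (n + 1) t ht) (h.R0 n t ht)).1 (by nlinarith [sq_nonneg (x n t)])

lemma Ranti (h : Ch η lm L C ℓ B T x R V) {t : ℝ} (ht : t ∈ Ico 0 T) :
    Antitone fun n => R n t := antitone_nat_of_succ_le fun n => Rle h n ht

lemma R1 (h : Ch η lm L C ℓ B T x R V) (n : ℕ) {t : ℝ} (ht : t ∈ Ico 0 T) : R n t ≤ 1 :=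
  (Ranti h ht (Nat.zero_le n)).trans (h.R1 t ht)

lemma xle (h : Ch η lm L C ℓ B T x R V) (n : ℕ) {t : ℝ} (ht : t ∈ Ico 0 T) :
    |x n t| ≤ R n t := by
  have h1 := h.Rsq n t ht
  exact abs_le_of_sq_le_sq (by nlinarith [sq_nonneg (R (n + 1) t)]) (h.R0 n t ht)

lemma x1 (h : Ch η lm L C ℓ B T x R V) (n : ℕ) {t : ℝ} (ht : t ∈ Ico 0 T) : |x n t| ≤ 1 :=
  (xle h n ht).trans (R1 h n ht)

lemma xsq1 (h : Ch η lm L C ℓ B T x R V) (n : ℕ) {t : ℝ} (ht : t ∈ Ico 0 T) :
    x n t ^ 2 ≤ 1 := by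
  have := x1 h n ht
  rw [← sq_abs]
  exact pow_le_one₀ (abs_nonneg _) this

lemma cL (h : Ch η lm L C ℓ B T x R V) (n : ℕ) :
    ContinuousOn (fun s => L n * R (n + 1) s) (Ico 0 T) := continuousOn_const.mul (h.cR (n + 1))

lemma Th_der (h : Ch η lm L C ℓ B T x R V) (n : ℕ) {t : ℝ} (ht : t ∈ Ioo 0 T) :
    HasDerivAt (Th L R n) (L n * R (n + 1) t) t := Pr_deriv (cL h n) ht

lemma Th_cont (h : Ch η lm L C ℓ B T x R V) (n : ℕ) : ContinuousOn (Th L R n) (Ico 0 T) :=
  Pr_cont (cL h n)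

lemma Th_mono (h : Ch η lm L C ℓ B T x R V) (n : ℕ) {a b : ℝ} (ha : 0 ≤ a) (hab : a ≤ b)
    (hb : b < T) : Th L R n a ≤ Th L R n b :=
  Pr_mono (cL h n) ⟨ha, hab.trans_lt hb⟩ ⟨ha.trans hab, hb⟩ hab fun t ht =>
    mul_nonneg (Lp h.nm n).le (h.R0 (n + 1) t ⟨ha.trans ht.1.le, ht.2.trans hb⟩)

lemma Th_nonneg (h : Ch η lm L C ℓ B T x R V) (n : ℕ) {a : ℝ} (ha : 0 ≤ a) (hb : a < T) :
    0 ≤ Th L R n a := by
  have h1 := Th_mono h n le_rfl ha hb
  have h2 : Th L R n 0 = 0 := Pool.Agent.Y5.Pr_zero _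
  rwa [h2] at h1

lemma His_mono (h : Ch η lm L C ℓ B T x R V) {n : ℕ} {a b : ℝ} (ha : 0 ≤ a) (hab : a ≤ b)
    (hb : b < T) (hH : His η lm L R n b) : His η lm L R n a :=
  ⟨(mul_le_mul_of_nonneg_left hab (Lp h.nm 0).le).trans hH.time,
    fun i hi => (Th_mono h i ha hab hb).trans (hH.old i hi),
    (Th_mono h (n + 1) ha hab hb).trans hH.next⟩

lemma dl4 (h : Num η lm L C ℓ) (n : ℕ) : dl η n ^ 4 ≤ 1 :=
  pow_le_one₀ (h.d0 n).le ((h.d1 n).trans (by norm_num))

lemma lm_step (h : Ch η lm L C ℓ B T x R V) (k : ℕ) : lm k + 2 ≤ lm (k + 1) := by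
  have h1 := h.sq.lm_grow k
  have h2 := dl4 h.nm (k + 1)
  have h3 := lmp h.nm (k + 1)
  have h4 := h.nm.lm1 k
  nlinarith

lemma lm_far (h : Ch η lm L C ℓ B T x R V) (k j : ℕ) : lm k + 2 * j ≤ lm (k + j) := by
  induction j with
  | zero => simp
  | succ j ih =>
    have := lm_step h (k + j)
    rw [← add_assoc]
    push_cast
    linarith

/-- the dissipation in the far modes -/
lemma Vfar (h : Ch η lm L C ℓ B T x R V) (hF : FAR η lm L T R) {n : ℕ} {t : ℝ}
    (ht : t ∈ Ico 0 T) (hH : His η lm L R n t) : V (n + 3) t ≤ 4 / lm (n + 2) := by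
  have hs : Summable fun j : ℕ => Real.exp (-(lm (n + 2) / 2)) * (1 / 2 : ℝ) ^ j :=
    summable_geometric_two.mul_left _
  have h1 := h.Vb (n + 3) t ht (fun j => Real.exp (-(lm (n + 2) / 2)) * (1 / 2 : ℝ) ^ j) ?_ hs
  · rw [tsum_mul_left, tsum_geometric_two] at h1
    have h2 := lmp h.nm (n + 2)
    have h3 := exp_neg_le (y := lm (n + 2) / 2) (by linarith)
    have h4 : 1 / (lm (n + 2) / 2) * 2 = 4 / lm (n + 2) := by
      field_simp
      norm_num
    linarith
  · intro j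
    have e : n + 3 + j = n + 2 + j + 1 := by ring
    rw [e]
    set m := n + 2 + j with hm
    obtain ⟨h2, -⟩ := hF n t ht hH m (by omega)
    have h3 : x (m + 1) t ^ 2 ≤ Real.exp (-(lm m)) := by
      have h4 := (xle h (m + 1) ht).trans h2
      have h5 : |x (m + 1) t| ^ 2 ≤ Real.exp (-(lm m / 2)) ^ 2 :=
        pow_le_pow_left₀ (abs_nonneg _) h4 2
      rw [sq_abs, ← Real.exp_nat_mul] at h5
      refine h5.trans_eq ?_
      congr 1
      push_cast
      ring
    have h4 : ℓ (m + 1) ≤ L m := by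
      have h5 := h.sq.ℓ_succ m
      have h6 := dl4 h.nm (m + 1)
      have h7 := Lp h.nm m
      have h8 := h.sq.ℓ_nonneg (m + 1)
      nlinarith
    have h5 : L m ≤ Real.exp (lm m / 4) := by
      refine (h.nm.QL m m (by omega)).trans ?_
      refine Real.exp_le_exp.2 ?_
      have h6 := h.nm.d1 m
      have h7 := lmp h.nm m
      nlinarith
    have h6 : ℓ (m + 1) * x (m + 1) t ^ 2 ≤ Real.exp (lm m / 4) * Real.exp (-(lm m)) :=
      mul_le_mul (h4.trans h5) h3 (sq_nonneg _) (Real.exp_pos _).le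
    refine h6.trans ?_
    have h7 : (1 / 2 : ℝ) ^ j ≥ Real.exp (-(j : ℝ)) := by
      have h8 : Real.exp (-1) ≤ 1 / 2 := by
        have := exp_neg_le (y := 1) one_pos
        have h9 : (2 : ℝ) ≤ Real.exp 1 := by linarith [Real.add_one_le_exp (1 : ℝ)]
        rw [Real.exp_neg, ← one_div]
        exact one_div_le_one_div_of_le two_pos h9
      have h9 : Real.exp (-(j : ℝ)) = Real.exp (-1) ^ j := by
        rw [← Real.exp_nat_mul]
        congr 1
        ring
      rw [h9]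
      exact pow_le_pow_left₀ (Real.exp_pos _).le h8 j
    have h8 : Real.exp (lm m / 4) * Real.exp (-(lm m)) ≤
        Real.exp (-(lm (n + 2) / 2)) * Real.exp (-(j : ℝ)) := by
      rw [← Real.exp_add, ← Real.exp_add]
      refine Real.exp_le_exp.2 ?_
      have h9 := lm_far h (n + 2) j
      rw [← hm] at h9
      have h10 := lmp h.nm m
      linarith
    exact h8.trans (mul_le_mul_of_nonneg_left h7 (Real.exp_pos _).le)

lemma q_mono (h : Ch η lm L C ℓ B T x R V) (n : ℕ) :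
    dl η 1 ^ 2 ≤ dl η (n + 1) ^ 2 * L n := by
  induction n with
  | zero =>
    have h1 := h.sq.L0
    have h2 := sq_nonneg (dl η 1)
    nlinarith
  | succ n ih =>
    refine ih.trans ?_
    have h1 := h.nm.ds (n + 1)
    have h2 := h.sq.lm_succ n
    have h3 := h.nm.lm1 (n + 1)
    have h4 := Lp h.nm n
    rw [h1, ← h2]
    have h5 : 0 ≤ dl η (n + 1) ^ 2 * L n := by positivity
    have h6 : (dl η (n + 1) / 4) ^ 2 * (lm (n + 1) * L n) =
        (dl η (n + 1) ^ 2 * L n) * (lm (n + 1) / 16) := by ring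
    rw [h6]
    have h7 : 1 ≤ lm (n + 1) / 16 := by linarith
    nlinarith

/-- numerical bounds with `q = dl (n+1) ^ 2 * L n` -/
structure Bd (q : ℝ) (η : ℝ) (lm L C ℓ : ℕ → ℝ) (n : ℕ) : Prop where
  e0 : e0 lm ≤ q / 10 ^ 30
  ph0 : ph lm n ≤ q / 10 ^ 30
  ph1 : ph lm (n + 1) ≤ q / 10 ^ 30
  ex : Real.exp (-(lm (n + 1) / 2)) ≤ q / 10 ^ 30
  CL : C n * L n ≤ q / 10 ^ 30
  ll : ℓ n ≤ q * (2 / 10 ^ 7)
  far : 4 / lm (n + 2) * (10 / cn η n) ≤ q / 10 ^ 20

lemma bd (h : Ch η lm L C ℓ B T x R V) (n : ℕ) : Bd (dl η (n + 1) ^ 2 * L n) η lm L C ℓ n := by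
  set d := dl η (n + 1) with hd
  have d0 : 0 < d := h.nm.d0 _
  have dn : dl η n = 4 * d := by
    have := h.nm.ds n
    rw [hd]
    linarith
  have d1 : d ≤ 1 / 400 := by
    have := h.nm.d1 n
    linarith
  have hL := h.nm.L1 n
  have hLp := Lp h.nm n
  have hlm := lmp h.nm n
  have hlm1 := lmp h.nm (n + 1)
  have hlm2 := lmp h.nm (n + 2)
  have d4 : d ^ 4 ≤ d ^ 2 * (1 / 160000) := by
    have : d ^ 4 = d ^ 2 * (d * d) := by ring
    rw [this]
    refine mul_le_mul_of_nonneg_left ?_ (sq_nonneg d)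
    nlinarith
  have k0 : 1 / lm n ≤ 256 * d ^ 4 / 10 ^ 30 := by
    have h1 := h.sq.lm_big n
    rw [dn] at h1
    rw [div_le_div_iff₀ hlm (by norm_num)]
    nlinarith
  have k1 : 1 / lm (n + 1) ≤ d ^ 4 / 10 ^ 30 := by
    have h1 := h.sq.lm_big (n + 1)
    rw [← hd] at h1
    rw [div_le_div_iff₀ hlm1 (by norm_num)]
    nlinarith
  have k2 : 1 / lm (n + 2) ≤ d ^ 4 / 10 ^ 30 := by
    have h1 := h.sq.lm_big (n + 2)
    have h2 := h.nm.ds (n + 1)
    rw [← hd] at h2
    have h3 : dl η (n + 2) ^ 4 ≤ d ^ 4 := by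
      rw [show dl η (n + 2) = d / 4 from h2]
      exact pow_le_pow_left₀ (by positivity) (by linarith) 4
    rw [div_le_div_iff₀ hlm2 (by norm_num)]
    nlinarith
  have hq : d ^ 2 ≤ d ^ 2 * L n := by nlinarith [sq_nonneg d]
  have hd2 : 0 < d ^ 2 := by positivity
  have ph0 : ph lm n ≤ 1 / lm n := exp_neg_le hlm
  have ph1 : ph lm (n + 1) ≤ 1 / lm (n + 1) := exp_neg_le hlm1
  refine ⟨?_, ?_, ?_, ?_, ?_, ?_, ?_⟩
  · have h1 := h.nm.e1
    have h2 := q_mono h n
    rw [← hd] at h2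
    have h3 := h.nm.ds 0
    have h4 := h.sq.lm_big 0
    have h5 := lmp h.nm 0
    have h6 := Lp h.nm 0
    have h7 : 0 < e0 lm := by
      unfold e0
      positivity
    have h8 := h.nm.d0 0
    have h9 := h.nm.d1 0
    have h10 : e0 lm * lm 0 ≤ 1 / 10 ^ 30 := by nlinarith
    have h11 : e0 lm * 10 ^ 30 ≤ dl η 0 ^ 4 * (1 / 10 ^ 30) := by
      calc e0 lm * 10 ^ 30 ≤ e0 lm * (dl η 0 ^ 4 * lm 0) := mul_le_mul_of_nonneg_left h4 h7.le
        _ = dl η 0 ^ 4 * (e0 lm * lm 0) := by ring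
        _ ≤ dl η 0 ^ 4 * (1 / 10 ^ 30) := mul_le_mul_of_nonneg_left h10 (by positivity)
    have h12 : dl η 0 ^ 4 ≤ dl η 0 ^ 2 * 1 := by
      have : dl η 0 ^ 4 = dl η 0 ^ 2 * (dl η 0 * dl η 0) := by ring
      rw [this]
      refine mul_le_mul_of_nonneg_left ?_ (sq_nonneg _)
      nlinarith
    have h13 : dl η 0 ^ 2 = 16 * dl η 1 ^ 2 := by
      rw [show dl η 1 = dl η 0 / 4 from h3]
      ring
    rw [le_div_iff₀ (by norm_num)]
    nlinarith
  · rw [le_div_iff₀ (by norm_num)]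
    have := ph0.trans k0
    rw [le_div_iff₀ (by norm_num)] at this
    nlinarith
  · rw [le_div_iff₀ (by norm_num)]
    have := ph1.trans k1
    rw [le_div_iff₀ (by norm_num)] at this
    nlinarith
  · have h1 := exp_neg_le (y := lm (n + 1) / 2) (by linarith)
    have h2 : 1 / (lm (n + 1) / 2) = 2 * (1 / lm (n + 1)) := by
      field_simp
    rw [h2] at h1
    have h3 : Real.exp (-(lm (n + 1) / 2)) ≤ 2 * (d ^ 4 / 10 ^ 30) := by linarith
    rw [le_div_iff₀ (by norm_num)]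
    have h4 : Real.exp (-(lm (n + 1) / 2)) * 10 ^ 30 ≤ 2 * d ^ 4 := by
      calc _ ≤ 2 * (d ^ 4 / 10 ^ 30) * 10 ^ 30 := mul_le_mul_of_nonneg_right h3 (by norm_num)
        _ = 2 * d ^ 4 := by ring
    nlinarith
  · have h1 : C n ≤ 1 / lm n := by
      refine (h.nm.C1 n).trans (le_trans ?_ (exp_neg_le hlm))
      exact Real.exp_le_exp.2 (by linarith)
    have h2 : C n * 10 ^ 30 ≤ d ^ 2 := by
      have := h1.trans k0
      rw [le_div_iff₀ (by norm_num)] at this
      nlinarith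
    rw [le_div_iff₀ (by norm_num)]
    nlinarith
  · have h1 := h.nm.ℓ1 n
    rw [dn] at h1
    have h2 : (4 * d) ^ 3 ≤ d ^ 2 * (16 / 100) := by
      have : (4 * d) ^ 3 = d ^ 2 * (64 * d) := by ring
      rw [this]
      exact mul_le_mul_of_nonneg_left (by linarith) hd2.le
    have h3 : (4 * d) ^ 3 * L n ≤ d ^ 2 * (16 / 100) * L n :=
      mul_le_mul_of_nonneg_right h2 hLp.le
    have h4 : 0 ≤ d ^ 2 * L n := by positivity
    linarith
  · have hc : cn η n = d / 1000 := by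
      rw [cn]
    rw [hc]
    have h1 : 4 / lm (n + 2) * (10 / (d / 1000)) = 40000 * (1 / lm (n + 2)) / d := by
      field_simp
      norm_num
    rw [h1]
    have h2 : 40000 * (1 / lm (n + 2)) / d ≤ 40000 * (d ^ 4 / 10 ^ 30) / d := by gcongr
    refine h2.trans ?_
    have h3 : 40000 * (d ^ 4 / 10 ^ 30) / d = 40000 * d * d ^ 2 / 10 ^ 30 := by
      field_simp
    rw [h3, div_le_div_iff₀ (by norm_num) (by norm_num)]
    have h4 : 40000 * d * d ^ 2 ≤ 100 * (d ^ 2 * L n) := by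
      have h5 : 40000 * d * d ^ 2 ≤ 100 * d ^ 2 :=
        mul_le_mul_of_nonneg_right (by linarith) hd2.le
      linarith
    linarith

/-- the strain of the lower modes is small -/
lemma Sg_le (h : Ch η lm L C ℓ B T x R V) (n : ℕ) {t : ℝ} (ht : t ∈ Ico 0 T) :
    |Sg L x n t| ≤ dl η (n + 1) ^ 2 * L n * (2 / 10 ^ 30) ∧
      |src L C x n t| ≤ dl η (n + 1) ^ 2 * L n * (1 / 10 ^ 30) := by
  have hd2 := sq_nonneg (dl η (n + 1))
  have hLp := Lp h.nm n
  rcases n with _ | n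
  · have h1 : Sg L x 0 t = 0 := by simp [Sg]
    have h2 : src L C x 0 t = 0 := by simp [src]
    rw [h1, h2, abs_zero]
    constructor <;> positivity
  · have hl := Lp h.nm n
    have h1 : |Sg L x (n + 1) t| ≤ 101 / 100 * L n := by
      refine le_trans ?_ (h.nm.Lsum n)
      refine (Finset.abs_sum_le_sum_abs _ _).trans (Finset.sum_le_sum fun i _ => ?_)
      rw [abs_mul, abs_of_pos (Lp h.nm i)]
      have := x1 h i ht
      have h2 := Lp h.nm i
      nlinarith
    have h2 : |src L C x (n + 1) t| ≤ L n := by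
      have e : src L C x (n + 1) t = L n * C n * x n t ^ 2 := by simp [src]
      have hC0 := h.nm.C0 n
      have hC1 : C n ≤ 1 := (h.nm.C1 n).trans (by
        rw [Real.exp_le_one_iff]
        linarith [lmp h.nm n])
      have hx := xsq1 h n ht
      rw [e, abs_of_nonneg (by positivity)]
      calc L n * C n * x n t ^ 2 ≤ L n * 1 * 1 := by gcongr
        _ = L n := by ring
    -- L n ≤ (d ^ 2 * L (n+1)) / 10 ^ 30
    have h3 : L n * 10 ^ 30 ≤ dl η (n + 2) ^ 2 * L (n + 1) := by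
      have h4 := h.sq.lm_succ n
      have h5 := h.sq.lm_big (n + 1)
      have h6 : dl η (n + 1) = 4 * dl η (n + 2) := by
        have : dl η (n + 2) = dl η (n + 1) / 4 := h.nm.ds (n + 1)
        linarith
      have h7 := h.nm.d0 (n + 2)
      have h8 : dl η (n + 2) ≤ 1 / 400 := by
        have := h.nm.d1 (n + 1)
        linarith
      rw [h6] at h5
      have h9 : (4 * dl η (n + 2)) ^ 4 ≤ dl η (n + 2) ^ 2 := by
        have e : (4 * dl η (n + 2)) ^ 4 = dl η (n + 2) ^ 2 * (256 * (dl η (n + 2) *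
          dl η (n + 2))) := by ring
        rw [e]
        have : 256 * (dl η (n + 2) * dl η (n + 2)) ≤ 1 := by nlinarith
        have h10 := sq_nonneg (dl η (n + 2))
        nlinarith
      have hlm := lmp h.nm (n + 1)
      calc L n * 10 ^ 30 ≤ L n * ((4 * dl η (n + 2)) ^ 4 * lm (n + 1)) :=
            mul_le_mul_of_nonneg_left h5 hl.le
        _ ≤ L n * (dl η (n + 2) ^ 2 * lm (n + 1)) := by gcongr
        _ = dl η (n + 2) ^ 2 * (lm (n + 1) * L n) := by ring
        _ = dl η (n + 2) ^ 2 * L (n + 1) := by rw [h4]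
    have h4 : dl η (n + 1 + 1) = dl η (n + 2) := rfl
    rw [h4]
    constructor
    · refine h1.trans ?_
      rw [show dl η (n + 2) ^ 2 * L (n + 1) * (2 / 10 ^ 30) =
        2 * (dl η (n + 2) ^ 2 * L (n + 1)) / 10 ^ 30 by ring, le_div_iff₀ (by norm_num)]
      linarith
    · refine h2.trans ?_
      rw [show dl η (n + 2) ^ 2 * L (n + 1) * (1 / 10 ^ 30) =
        (dl η (n + 2) ^ 2 * L (n + 1)) / 10 ^ 30 by ring, le_div_iff₀ (by norm_num)]
      linarith

/-- derivatives of `x n` and `R (n + 1)` -/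
lemma ders (h : Ch η lm L C ℓ B T x R V) (hF : FAR η lm L T R) {n : ℕ} {t : ℝ}
    (ht : t ∈ Ioo 0 T) (hH : His η lm L R n t) (hW : cn η n / 10 ≤ R (n + 1) t) :
    ∃ v w e₁ e₂ : ℝ, HasDerivAt (x n) v t ∧ HasDerivAt (R (n + 1)) w t ∧
      v = -(L n * R (n + 1) t) * R (n + 1) t + e₁ ∧
      w = L n * R (n + 1) t * x n t + e₂ ∧
      |e₁| + |e₂| ≤ dl η (n + 1) ^ 2 * L n / 10 ^ 6 + ℓ (n + 1) * R (n + 1) t +
        ℓ (n + 2) * R (n + 2) t := by
  have ht' : t ∈ Ico 0 T := ⟨ht.1.le, ht.2⟩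
  obtain ⟨v, hv, hvb⟩ := h.dx n t ht
  obtain ⟨D, hD, hDb⟩ := h.dR (n + 1) t ht
  obtain ⟨bS, bs⟩ := Sg_le h n ht'
  have b := bd h n
  set q := dl η (n + 1) ^ 2 * L n with hq
  have hLp := Lp h.nm n
  have hq0 : 0 ≤ q := by positivity
  have hc0 : 0 < cn η n := by
    have := h.nm.d0 (n + 1)
    rw [cn]
    positivity
  have hW0 : 0 < R (n + 1) t := by linarith
  have hW1 := R1 h (n + 1) ht'
  have hX1 := x1 h n ht'
  have hX0 := abs_nonneg (x n t)
  have hC0 := h.nm.C0 n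
  have hl0 := h.sq.ℓ_nonneg n
  have he0 : 0 ≤ e0 lm := by
    unfold e0
    positivity
  have hp1 : 0 ≤ ph lm (n + 1) := (Real.exp_pos _).le
  -- derivative of R
  have hw : HasDerivAt (R (n + 1)) (D / (2 * R (n + 1) t)) t := by
    have h1 := hD.sqrt (by positivity)
    rw [Real.sqrt_sq hW0.le] at h1
    refine h1.congr_of_eventuallyEq ?_
    filter_upwards [Ico_mem_nhds ht.1 ht.2] with s hs
    exact (Real.sqrt_sq (h.R0 (n + 1) s hs)).symm
  refine ⟨v, D / (2 * R (n + 1) t), v + L n * R (n + 1) t * R (n + 1) t,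
    D / (2 * R (n + 1) t) - L n * R (n + 1) t * x n t, hv, hw, by ring, by ring, ?_⟩
  -- first error
  have E1 : |v + L n * R (n + 1) t * R (n + 1) t| ≤ q * (5 / 10 ^ 7) := by
    have e : v + L n * R (n + 1) t * R (n + 1) t =
        (v - (Sg L x n t * x n t + src L C x n t - ℓ n * x n t - L n * R (n + 1) t ^ 2)) +
        Sg L x n t * x n t + src L C x n t - ℓ n * x n t := by ring
    rw [e]
    have h1 : |Sg L x n t * x n t| ≤ q * (2 / 10 ^ 30) := by
      rw [abs_mul]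
      calc _ ≤ |Sg L x n t| * 1 := by gcongr
        _ ≤ _ := by rw [mul_one]; exact bS
    have h2 : |ℓ n * x n t| ≤ q * (2 / 10 ^ 7) := by
      rw [abs_mul, abs_of_nonneg hl0]
      calc _ ≤ ℓ n * 1 := by gcongr
        _ ≤ _ := by rw [mul_one]; exact b.ll
    have h3 : e0 lm * |x n t| ≤ q / 10 ^ 30 := by
      calc _ ≤ e0 lm * 1 := by gcongr
        _ ≤ _ := by rw [mul_one]; exact b.e0
    have h4 : C n * L n * |x n t| * R (n + 1) t ≤ q / 10 ^ 30 := by
      calc _ ≤ C n * L n * 1 * 1 := by gcongr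
        _ ≤ _ := by rw [mul_one, mul_one]; exact b.CL
    have h5 : Real.exp (-(lm (n + 1) / 2)) * R (n + 1) t ^ 2 ≤ q / 10 ^ 30 := by
      have : R (n + 1) t ^ 2 ≤ 1 := pow_le_one₀ hW0.le hW1
      calc _ ≤ Real.exp (-(lm (n + 1) / 2)) * 1 := by gcongr
        _ ≤ _ := by rw [mul_one]; exact b.ex
    have h6 := b.ph0
    have h7 := abs_sub (((v - (Sg L x n t * x n t + src L C x n t - ℓ n * x n t -
      L n * R (n + 1) t ^ 2)) + Sg L x n t * x n t + src L C x n t)) (ℓ n * x n t)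
    have h8 := abs_add_le (((v - (Sg L x n t * x n t + src L C x n t - ℓ n * x n t -
      L n * R (n + 1) t ^ 2)) + Sg L x n t * x n t)) (src L C x n t)
    have h9 := abs_add_le ((v - (Sg L x n t * x n t + src L C x n t - ℓ n * x n t -
      L n * R (n + 1) t ^ 2))) (Sg L x n t * x n t)
    have h10 : q * (2 / 10 ^ 30) + q * (1 / 10 ^ 30) + q * (2 / 10 ^ 7) +
      4 * (q / 10 ^ 30) ≤ q * (5 / 10 ^ 7) := by
      have : q * (2 / 10 ^ 30) + q * (1 / 10 ^ 30) + q * (2 / 10 ^ 7) + 4 * (q / 10 ^ 30) =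
        q * (7 / 10 ^ 30 + 2 / 10 ^ 7) := by ring
      rw [this]
      exact mul_le_mul_of_nonneg_left (by norm_num) hq0
    linarith
  -- the dissipation
  have hV : V (n + 1) t / R (n + 1) t ≤ ℓ (n + 1) * R (n + 1) t + ℓ (n + 2) * R (n + 2) t +
      q / 10 ^ 20 := by
    have h1 := h.Vs (n + 1) t ht'
    have h2 := h.Vs (n + 2) t ht'
    have h3 := Vfar h hF ht' hH
    have h4 : x (n + 1) t ^ 2 ≤ R (n + 1) t * R (n + 1) t := by
      have := xle h (n + 1) ht'
      rw [← sq_abs, ← pow_two]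
      exact pow_le_pow_left₀ (abs_nonneg _) this 2
    have h5 : x (n + 2) t ^ 2 ≤ R (n + 2) t * R (n + 1) t := by
      have h6 := xle h (n + 2) ht'
      have h7 := Rle h (n + 1) ht'
      rw [← sq_abs, pow_two]
      exact mul_le_mul h6 (h6.trans h7) (abs_nonneg _) (h.R0 _ t ht')
    have h6 := h.sq.ℓ_nonneg (n + 1)
    have h7 := h.sq.ℓ_nonneg (n + 2)
    have h8 : V (n + 3) t ≤ q / 10 ^ 20 * R (n + 1) t := by
      have h9 := b.far
      have h10 := lmp h.nm (n + 2)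
      calc V (n + 3) t ≤ 4 / lm (n + 2) := h3
        _ = 4 / lm (n + 2) * (10 / cn η n) * (cn η n / 10) := by field_simp
        _ ≤ q / 10 ^ 20 * R (n + 1) t := by gcongr
    rw [div_le_iff₀ hW0]
    have h9 : ℓ (n + 1) * x (n + 1) t ^ 2 ≤ ℓ (n + 1) * (R (n + 1) t * R (n + 1) t) := by gcongr
    have h10 : ℓ (n + 2) * x (n + 2) t ^ 2 ≤ ℓ (n + 2) * (R (n + 2) t * R (n + 1) t) := by gcongr
    have e1 : V (n + 1 + 1) t = V (n + 2) t := rfl
    have e2 : V (n + 2 + 1) t = V (n + 3) t := rfl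
    rw [e1] at h1
    rw [e2] at h2
    nlinarith
  have hV0 : 0 ≤ V (n + 1) t / R (n + 1) t := div_nonneg (h.V0 _ t ht') hW0.le
  -- second error
  have E2 : |D / (2 * R (n + 1) t) - L n * R (n + 1) t * x n t| ≤ q * (1 / 10 ^ 7) +
      (ℓ (n + 1) * R (n + 1) t + ℓ (n + 2) * R (n + 2) t) := by
    have hSg : Sg L x (n + 1) t = Sg L x n t + L n * x n t := by
      simp only [Sg, Finset.sum_range_succ]
    have hsrc : src L C x (n + 1) t = L n * C n * x n t ^ 2 := by simp [src]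
    have e : D / (2 * R (n + 1) t) - L n * R (n + 1) t * x n t =
        (D - 2 * (Sg L x (n + 1) t * R (n + 1) t ^ 2 + src L C x (n + 1) t * x (n + 1) t -
          V (n + 1) t)) / (2 * R (n + 1) t) + Sg L x n t * R (n + 1) t +
          src L C x (n + 1) t * (x (n + 1) t / R (n + 1) t) - V (n + 1) t / R (n + 1) t := by
      rw [hSg]
      field_simp
      ring
    rw [e]
    have h1 : |(D - 2 * (Sg L x (n + 1) t * R (n + 1) t ^ 2 + src L C x (n + 1) t * x (n + 1) t -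
          V (n + 1) t)) / (2 * R (n + 1) t)| ≤ e0 lm * R (n + 1) t + 2 * ph lm (n + 1) := by
      rw [abs_div, abs_of_pos (by positivity : 0 < 2 * R (n + 1) t), div_le_iff₀ (by positivity)]
      refine hDb.trans (le_of_eq ?_)
      ring
    have h2 : e0 lm * R (n + 1) t ≤ q / 10 ^ 30 := by
      calc _ ≤ e0 lm * 1 := by gcongr
        _ ≤ _ := by rw [mul_one]; exact b.e0
    have h3 : |Sg L x n t * R (n + 1) t| ≤ q * (2 / 10 ^ 30) := by
      rw [abs_mul, abs_of_pos hW0]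
      calc _ ≤ |Sg L x n t| * 1 := by gcongr
        _ ≤ _ := by rw [mul_one]; exact bS
    have h4 : |src L C x (n + 1) t * (x (n + 1) t / R (n + 1) t)| ≤ q / 10 ^ 30 := by
      have h5 : |x (n + 1) t / R (n + 1) t| ≤ 1 := by
        rw [abs_div, abs_of_pos hW0, div_le_one hW0]
        exact xle h (n + 1) ht'
      have h6 : |src L C x (n + 1) t| ≤ C n * L n := by
        rw [hsrc, abs_of_nonneg (by positivity)]
        have := xsq1 h n ht'
        calc L n * C n * x n t ^ 2 ≤ L n * C n * 1 := by gcongr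
          _ = C n * L n := by ring
      rw [abs_mul]
      calc _ ≤ C n * L n * 1 := by gcongr
        _ ≤ _ := by rw [mul_one]; exact b.CL
    have h5 := b.ph1
    have h7 := abs_sub ((D - 2 * (Sg L x (n + 1) t * R (n + 1) t ^ 2 +
          src L C x (n + 1) t * x (n + 1) t -
          V (n + 1) t)) / (2 * R (n + 1) t) + Sg L x n t * R (n + 1) t +
          src L C x (n + 1) t * (x (n + 1) t / R (n + 1) t)) (V (n + 1) t / R (n + 1) t)
    have h8 := abs_add_le ((D - 2 * (Sg L x (n + 1) t * R (n + 1) t ^ 2 +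
          src L C x (n + 1) t * x (n + 1) t -
          V (n + 1) t)) / (2 * R (n + 1) t) + Sg L x n t * R (n + 1) t)
          (src L C x (n + 1) t * (x (n + 1) t / R (n + 1) t))
    have h9 := abs_add_le ((D - 2 * (Sg L x (n + 1) t * R (n + 1) t ^ 2 +
          src L C x (n + 1) t * x (n + 1) t -
          V (n + 1) t)) / (2 * R (n + 1) t)) (Sg L x n t * R (n + 1) t)
    rw [abs_of_nonneg hV0] at h7
    have h10 : q * (2 / 10 ^ 30) + 4 * (q / 10 ^ 30) + q / 10 ^ 20 ≤ q * (1 / 10 ^ 7) := by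
      have : q * (2 / 10 ^ 30) + 4 * (q / 10 ^ 30) + q / 10 ^ 20 =
        q * (6 / 10 ^ 30 + 1 / 10 ^ 20) := by ring
      rw [this]
      exact mul_le_mul_of_nonneg_left (by norm_num) hq0
    linarith
  have : q * (5 / 10 ^ 7) + q * (1 / 10 ^ 7) ≤ q / 10 ^ 6 := by
    have : q * (5 / 10 ^ 7) + q * (1 / 10 ^ 7) = q * (6 / 10 ^ 7) := by ring
    rw [this, div_eq_mul_inv]
    exact mul_le_mul_of_nonneg_left (by norm_num) hq0
  linarith

end ch

theorem t_ROT : S_ROT := by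
  intro η lm L C ℓ B T x R V h hF n a b ha hab hb hH hlen hW hWa hTa hXa
  set d := dl η (n + 1) with hd
  have d0 : 0 < d := h.nm.d0 _
  have d1 : d ≤ 1 / 100 := h.nm.d1 _
  have hc : cn η n = d / 1000 := by rw [cn]
  set c := cn η n with hcn
  have c0 : 0 < c := by rw [hc]; positivity
  have c1 : c ≤ 1 / 10 ^ 5 := by rw [hc]; linarith
  have hLp := Lp h.nm n
  have hLp1 := Lp h.nm (n + 1)
  set θ := Th L R n with hθ
  -- the comparison function
  set G : ℝ → ℝ := fun t => d ^ 2 * L n / 10 ^ 6 * t + ℓ (n + 1) / L n * Th L R n t +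
    ℓ (n + 2) / L (n + 1) * Th L R (n + 1) t with hG
  have hsub : Icc a b ⊆ Ico 0 T := fun t ht => ⟨ha.trans ht.1, ht.2.trans_lt hb⟩
  have hsub' : Ioo a b ⊆ Ioo 0 T := fun t ht => ⟨ha.trans_lt ht.1, ht.2.trans hb⟩
  have cG : ContinuousOn G (Icc a b) :=
    ((continuousOn_const.mul continuousOn_id).add (continuousOn_const.mul
      ((Th_cont h n).mono hsub))).add (continuousOn_const.mul ((Th_cont h (n + 1)).mono hsub))
  have dG : ∀ t ∈ Ioo a b, HasDerivAt G (d ^ 2 * L n / 10 ^ 6 + ℓ (n + 1) * R (n + 1) t +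
      ℓ (n + 2) * R (n + 2) t) t := by
    intro t ht
    have h1 := (((hasDerivAt_id t).const_mul (d ^ 2 * L n / 10 ^ 6)).add
      ((Th_der h n (hsub' ht)).const_mul (ℓ (n + 1) / L n))).add
      ((Th_der h (n + 1) (hsub' ht)).const_mul (ℓ (n + 2) / L (n + 1)))
    refine h1.congr_deriv ?_
    field_simp
  have hGb : G b - G a ≤ c := by
    have t1 := Th_nonneg h n ha (hab.trans_lt hb)
    have t2 := Th_nonneg h (n + 1) ha (hab.trans_lt hb)
    have t3 := hH.old n le_rfl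
    have t4 := hH.next
    have e : G b - G a = d ^ 2 * L n / 10 ^ 6 * (b - a) + ℓ (n + 1) / L n * (Th L R n b -
      Th L R n a) + ℓ (n + 2) / L (n + 1) * (Th L R (n + 1) b - Th L R (n + 1) a) := by
      simp only [hG]
      ring
    have l1 : ℓ (n + 1) / L n ≤ d ^ 4 / 10 ^ 6 := by
      have := h.sq.ℓ_succ n
      rw [div_le_div_iff₀ hLp (by norm_num)]
      linarith
    have l2 : ℓ (n + 2) / L (n + 1) ≤ d ^ 4 / 10 ^ 6 := by
      have h1 := h.sq.ℓ_succ (n + 1)
      have h2 : dl η (n + 2) = d / 4 := h.nm.ds (n + 1)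
      have h3 : dl η (n + 2) ^ 4 ≤ d ^ 4 := by
        rw [h2]
        exact pow_le_pow_left₀ (by positivity) (by linarith) 4
      rw [div_le_div_iff₀ hLp1 (by norm_num)]
      have h4 : dl η (n + 2) ^ 4 * L (n + 1) ≤ d ^ 4 * L (n + 1) := by gcongr
      have h5 : ℓ (n + 1 + 1) = ℓ (n + 2) := rfl
      have h6 : dl η (n + 1 + 1) = dl η (n + 2) := rfl
      rw [h5, h6] at h1
      linarith
    have l10 : 0 ≤ ℓ (n + 1) / L n := div_nonneg (h.sq.ℓ_nonneg _) hLp.le
    have l20 : 0 ≤ ℓ (n + 2) / L (n + 1) := div_nonneg (h.sq.ℓ_nonneg _) hLp1.le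
    have m1 : d ^ 2 * L n / 10 ^ 6 * (b - a) ≤ d / 10 ^ 6 := by
      calc _ ≤ d ^ 2 * L n / 10 ^ 6 * (1 / (d * L n)) := by gcongr
        _ = d / 10 ^ 6 := by field_simp
    have m2 : ℓ (n + 1) / L n * (Th L R n b - Th L R n a) ≤ d ^ 4 / 10 ^ 6 * 2 := by
      calc _ ≤ ℓ (n + 1) / L n * 2 := by gcongr; linarith
        _ ≤ _ := by gcongr
    have m3 : ℓ (n + 2) / L (n + 1) * (Th L R (n + 1) b - Th L R (n + 1) a) ≤
        d ^ 4 / 10 ^ 6 * 1 := by
      calc _ ≤ ℓ (n + 2) / L (n + 1) * 1 := by gcongr; linarith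
        _ ≤ _ := by gcongr
    have m4 : d ^ 4 ≤ d := by
      have : d ^ 4 ≤ d ^ 1 := pow_le_pow_of_le_one d0.le (by linarith) (by norm_num)
      simpa using this
    rw [e, hc]
    linarith
  -- the two invariants
  have key : ∀ t ∈ Ioo a b, ∃ v w e₁ e₂ : ℝ, HasDerivAt (x n) v t ∧ HasDerivAt (R (n + 1)) w t ∧
      v = -(L n * R (n + 1) t) * R (n + 1) t + e₁ ∧ w = L n * R (n + 1) t * x n t + e₂ ∧
      |e₁| + |e₂| ≤ d ^ 2 * L n / 10 ^ 6 + ℓ (n + 1) * R (n + 1) t + ℓ (n + 2) * R (n + 2) t :=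
    fun t ht => ders h hF (hsub' ht) (His_mono h (ha.trans ht.1.le) ht.2.le hb hH)
      (hW t ⟨ht.1.le, ht.2.le⟩)
  have cX : ContinuousOn (x n) (Icc a b) := (h.cx n).mono hsub
  have cW : ContinuousOn (R (n + 1)) (Icc a b) := (h.cR (n + 1)).mono hsub
  have cθ : ContinuousOn θ (Icc a b) := (Th_cont h n).mono hsub
  have hP := incr_abs (f := fun t => x n t * Real.cos (θ t) + R (n + 1) t * Real.sin (θ t))
    hab ((cX.mul (Real.continuous_cos.comp_continuousOn cθ)).add (cW.mul (Real.continuous_sin.comp_continuousOn cθ))) cG dG (fun t ht => by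
      obtain ⟨v, w, e₁, e₂, hv, hw, ev, ew, hb'⟩ := key t ht
      have hθd : HasDerivAt θ (L n * R (n + 1) t) t := Th_der h n (hsub' ht)
      refine ⟨_, (hv.mul hθd.cos).add (hw.mul hθd.sin), ?_⟩
      have e : v * Real.cos (θ t) + x n t * (-Real.sin (θ t) * (L n * R (n + 1) t)) +
        (w * Real.sin (θ t) + R (n + 1) t * (Real.cos (θ t) * (L n * R (n + 1) t))) =
        e₁ * Real.cos (θ t) + e₂ * Real.sin (θ t) := by
        rw [ev, ew]
        ring
      rw [e]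
      refine le_trans ?_ hb'
      refine (abs_add_le _ _).trans (add_le_add ?_ ?_)
      · rw [abs_mul]
        exact mul_le_of_le_one_right (abs_nonneg _) (Real.abs_cos_le_one _)
      · rw [abs_mul]
        exact mul_le_of_le_one_right (abs_nonneg _) (Real.abs_sin_le_one _))
  have hS := incr_abs (f := fun t => R (n + 1) t * Real.cos (θ t) - x n t * Real.sin (θ t))
    hab ((cW.mul (Real.continuous_cos.comp_continuousOn cθ)).sub (cX.mul (Real.continuous_sin.comp_continuousOn cθ))) cG dG (fun t ht => by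
      obtain ⟨v, w, e₁, e₂, hv, hw, ev, ew, hb'⟩ := key t ht
      have hθd : HasDerivAt θ (L n * R (n + 1) t) t := Th_der h n (hsub' ht)
      refine ⟨_, (hw.mul hθd.cos).sub (hv.mul hθd.sin), ?_⟩
      have e : w * Real.cos (θ t) + R (n + 1) t * (-Real.sin (θ t) * (L n * R (n + 1) t)) -
        (v * Real.sin (θ t) + x n t * (Real.cos (θ t) * (L n * R (n + 1) t))) =
        e₂ * Real.cos (θ t) - e₁ * Real.sin (θ t) := by
        rw [ev, ew]
        ring
      rw [e]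
      refine le_trans ?_ hb'
      refine (abs_sub _ _).trans ?_
      rw [add_comm |e₁|]
      refine add_le_add ?_ ?_
      · rw [abs_mul]
        exact mul_le_of_le_one_right (abs_nonneg _) (Real.abs_cos_le_one _)
      · rw [abs_mul]
        exact mul_le_of_le_one_right (abs_nonneg _) (Real.abs_sin_le_one _))
  beta_reduce at hP hS
  have hP' := hP.trans hGb
  have hS' := hS.trans hGb
  have haT : a ∈ Ico 0 T := ⟨ha, hab.trans_lt hb⟩
  have hθa : θ a = c := hTa
  rw [hθa] at hP' hS'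
  have hXa1 := x1 h n haT
  rw [abs_of_nonneg hXa] at hXa1
  have hWa0 := h.R0 (n + 1) a haT
  have hcos1 : 1 - c ^ 2 / 2 ≤ Real.cos c := Real.one_sub_sq_div_two_le_cos
  have hcos2 := Real.cos_le_one c
  have hsin1 : Real.sin c ≤ c := Real.sin_le c0.le
  have hsin0 : 0 ≤ Real.sin c := Real.sin_nonneg_of_nonneg_of_le_pi c0.le (by
    linarith [Real.pi_gt_three])
  -- values at a
  have hPa : |x n a * Real.cos c + R (n + 1) a * Real.sin c - x n a| ≤ c := by
    have h1 : x n a * (1 - Real.cos c) ≤ 1 * (c ^ 2 / 2) := by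
      refine mul_le_mul hXa1 (by linarith) (by linarith) one_pos.le
    have h2 : R (n + 1) a * Real.sin c ≤ 3 * c * c := mul_le_mul hWa hsin1 hsin0 (by linarith)
    have h3 : 0 ≤ x n a * (1 - Real.cos c) := mul_nonneg hXa (by linarith)
    have h4 : 0 ≤ R (n + 1) a * Real.sin c := mul_nonneg hWa0 hsin0
    have h5 : c ^ 2 ≤ c * (1 / 10 ^ 5) := by
      rw [pow_two]
      exact mul_le_mul_of_nonneg_left c1 c0.le
    rw [abs_le]
    constructor <;> nlinarith
  have hSa : |R (n + 1) a * Real.cos c - x n a * Real.sin c| ≤ 4 * c := by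
    have h1 : x n a * Real.sin c ≤ 1 * c := mul_le_mul hXa1 hsin1 hsin0 one_pos.le
    have h2 : 0 ≤ x n a * Real.sin c := mul_nonneg hXa hsin0
    have h3 : 0 ≤ Real.cos c := by nlinarith
    have h4 : R (n + 1) a * Real.cos c ≤ 3 * c * 1 := mul_le_mul hWa hcos2 h3 (by linarith)
    have h5 : 0 ≤ R (n + 1) a * Real.cos c := mul_nonneg hWa0 h3
    rw [abs_le]
    constructor <;> linarith
  set P := x n b * Real.cos (θ b) + R (n + 1) b * Real.sin (θ b) with hPdef
  set S := R (n + 1) b * Real.cos (θ b) - x n b * Real.sin (θ b) with hSdef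
  have hPX : |P - x n a| ≤ 2 * c := by
    have := abs_sub_le P (x n a * Real.cos c + R (n + 1) a * Real.sin c) (x n a)
    linarith
  have hSb : |S| ≤ 5 * c := by
    have := abs_sub_abs_le_abs_sub S (R (n + 1) a * Real.cos c - x n a * Real.sin c)
    linarith
  have htr : Real.sin (θ b) ^ 2 + Real.cos (θ b) ^ 2 = 1 := Real.sin_sq_add_cos_sq _
  have e1 : x n b - x n a * Real.cos (θ b) = (P - x n a) * Real.cos (θ b) -
      S * Real.sin (θ b) := by
    have : x n b = P * Real.cos (θ b) - S * Real.sin (θ b) := by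
      rw [hPdef, hSdef]
      linear_combination (-x n b) * htr
    rw [this]
    ring
  have e2 : R (n + 1) b - x n a * Real.sin (θ b) = (P - x n a) * Real.sin (θ b) +
      S * Real.cos (θ b) := by
    have : R (n + 1) b = P * Real.sin (θ b) + S * Real.cos (θ b) := by
      rw [hPdef, hSdef]
      linear_combination (-R (n + 1) b) * htr
    rw [this]
    ring
  have u1 := Real.abs_cos_le_one (θ b)
  have u2 := Real.abs_sin_le_one (θ b)
  have v1 : |(P - x n a) * Real.cos (θ b)| ≤ 2 * c := by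
    rw [abs_mul]
    exact (mul_le_of_le_one_right (abs_nonneg _) u1).trans hPX
  have v2 : |(P - x n a) * Real.sin (θ b)| ≤ 2 * c := by
    rw [abs_mul]
    exact (mul_le_of_le_one_right (abs_nonneg _) u2).trans hPX
  have v3 : |S * Real.cos (θ b)| ≤ 5 * c := by
    rw [abs_mul]
    exact (mul_le_of_le_one_right (abs_nonneg _) u1).trans hSb
  have v4 : |S * Real.sin (θ b)| ≤ 5 * c := by
    rw [abs_mul]
    exact (mul_le_of_le_one_right (abs_nonneg _) u2).trans hSb
  constructor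
  · rw [e1]
    have := abs_sub ((P - x n a) * Real.cos (θ b)) (S * Real.sin (θ b))
    linarith
  · rw [e2]
    have := abs_add_le ((P - x n a) * Real.sin (θ b)) (S * Real.cos (θ b))
    linarith

end Pool.Agent.Y21.EJ
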